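import Mathlib

set_option autoImplicit false

namespace Pool.Agent.H.MP_5d65a3_an

open Set Metric Filter Topology MeasureTheory
open scoped ENNReal NNReal

theorem moranM {F : Type} [Fintype F] (a0 : F) (r P : F → F → ℝ)
    (hr : ∀ a b, 0 < r a b ∧ r a b ≤ 1 / 4) (hP0 : ∀ a b, 0 ≤ P a b) (hP1 : ∀ a, ∑ b, P a b = 1)
    (C : ℝ) (hC : 0 < C) {s : ℝ} (hs : 0 < s)
    (hP : ∀ (τ : ℕ → F) k, ∏ i ∈ Finset.range k, P (τ i) (τ (i + 1)) ≤
      C * (∏ i ∈ Finset.range k, r (τ i) (τ (i + 1))) ^ s)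
    (π : (ℕ → F) → ℝ) (δ : ℝ) (hδ : 0 < δ)
    (hπ : ∀ k ω τ, (∀ i ≤ k, ω i = τ i) → ω (k + 1) ≠ τ (k + 1) →
      δ * ∏ i ∈ Finset.range k, r (τ i) (τ (i + 1)) ≤ dist (π ω) (π τ))
    (E : Set ℝ) (hE : ∀ ω, π ω ∈ E) : ENNReal.ofReal s ≤ dimH E := by
  classical
  let _ : MeasurableSpace F := ⊤
  set p : F → PMF F := fun a => PMF.ofFintype (fun e => ENNReal.ofReal (P a e)) (by
    rw [← ENNReal.ofReal_sum_of_nonneg (fun e _ => hP0 a e), hP1, ENNReal.ofReal_one]) with hp
  set ν : Measure (F → F) := Measure.pi fun a => (p a).toMeasure with hν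
  have hν1 : ∀ a b, ν {ψ | ψ a = b} = ENNReal.ofReal (P a b) := by
    intro a b
    have := (measurePreserving_eval (fun a => (p a).toMeasure) a).measure_preimage
      (s := {b}) (MeasurableSet.nullMeasurableSet trivial)
    rw [PMF.toMeasure_apply_singleton _ _ MeasurableSpace.measurableSet_top, hp,
      PMF.ofFintype_apply] at this
    exact this
  set μ : Measure (ℕ → F → F) := Measure.infinitePi (fun _ : ℕ => ν) with hμ
  obtain ⟨c, hc0, hc⟩ : ∃ c : (ℕ → F → F) → ℕ → F, (∀ φ, c φ 0 = a0) ∧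
      ∀ φ n, c φ (n + 1) = φ n (c φ n) :=
    ⟨fun φ n => Nat.rec a0 (fun n x => φ n x) n, fun _ => rfl, fun _ _ => rfl⟩
  have hR : ∀ (τ : ℕ → F) (k : ℕ), 0 < ∏ i ∈ Finset.range k, r (τ i) (τ (i + 1)) := fun τ k =>
    Finset.prod_pos fun i _ => (hr _ _).1
  have hcyl : ∀ (τ : ℕ → F) (k : ℕ), μ {φ | ∀ i ≤ k, c φ i = τ i} ≤
      ENNReal.ofReal (C * (∏ i ∈ Finset.range k, r (τ i) (τ (i + 1))) ^ s) := by
    intro τ k
    have : {φ : ℕ → F → F | ∀ i ≤ k, c φ i = τ i} ⊆
        Set.pi (Finset.range k) (fun i => {ψ | ψ (τ i) = τ (i + 1)}) := by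
      intro φ h i hi
      have hi' : i < k := by simpa using hi
      show φ i (τ i) = τ (i + 1)
      rw [← h i hi'.le, ← hc φ i, h _ hi']
    refine (measure_mono this).trans ?_
    rw [hμ, Measure.infinitePi_pi _ (t := fun i => {ψ : F → F | ψ (τ i) = τ (i + 1)})
      (fun i _ => measurable_pi_apply (X := fun _ : F => F) (τ i) (t := {τ (i + 1)})
        MeasurableSpace.measurableSet_top)]
    simp only [hν1]
    rw [← ENNReal.ofReal_prod_of_nonneg (fun i _ => hP0 _ _)]
    exact ENNReal.ofReal_le_ofReal (hP τ k)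
  have key : ∀ U : Set ℝ, ENNReal.ofReal (δ ^ s / C) * μ ((π ∘ c) ⁻¹' U) ≤ Metric.ediam U ^ s := by
    intro U
    rcases ((π ∘ c) ⁻¹' U).eq_empty_or_nonempty with he | ⟨τ, hτ⟩
    · rw [he]; simp
    by_cases hall : ∃ k, ∃ ω ∈ (π ∘ c) ⁻¹' U, c ω (k + 1) ≠ c τ (k + 1)
    · obtain ⟨ω, hω, hne⟩ := Nat.find_spec hall
      set k := Nat.find hall with hk
      have hsub : (π ∘ c) ⁻¹' U ⊆ {ω | ∀ i ≤ k, c ω i = c τ i} := by
        intro ω' hω' i hi
        rcases i with _ | i
        · rw [hc0, hc0]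
        by_contra hc
        exact Nat.find_min hall (by omega : i < k) ⟨ω', hω', hc⟩
      have hdist := hπ k _ _ (hsub hω) hne
      have := hR (c τ) k
      calc ENNReal.ofReal (δ ^ s / C) * μ ((π ∘ c) ⁻¹' U)
          ≤ ENNReal.ofReal (δ ^ s / C) *
              ENNReal.ofReal (C * (∏ i ∈ Finset.range k, r (c τ i) (c τ (i + 1))) ^ s) :=
            mul_le_mul_right ((measure_mono hsub).trans (hcyl (c τ) k)) _
        _ = ENNReal.ofReal (δ * ∏ i ∈ Finset.range k, r (c τ i) (c τ (i + 1))) ^ s := by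
            rw [← ENNReal.ofReal_mul (by positivity), ← mul_assoc, div_mul_cancel₀ _ hC.ne',
              ← Real.mul_rpow hδ.le this.le, ENNReal.ofReal_rpow_of_nonneg (by positivity) hs.le]
        _ ≤ _ := by
            refine ENNReal.rpow_le_rpow ?_ hs.le
            refine le_trans ?_ (Metric.edist_le_ediam_of_mem hω hτ)
            rw [edist_dist]; exact ENNReal.ofReal_le_ofReal hdist
    · push Not at hall
      have h0 : μ ((π ∘ c) ⁻¹' U) = 0 := by
        have hl : Tendsto (fun k : ℕ => ENNReal.ofReal (C * ((1 / 4 : ℝ) ^ s) ^ k)) atTop (𝓝 0) := by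
          rw [← ENNReal.ofReal_zero, ← mul_zero C]
          exact ENNReal.tendsto_ofReal ((tendsto_pow_atTop_nhds_zero_of_lt_one (by positivity)
            (Real.rpow_lt_one (by norm_num) (by norm_num) hs)).const_mul C)
        refine le_antisymm (ge_of_tendsto hl (Eventually.of_forall (fun k => ?_))) (by positivity)
        have hsub : (π ∘ c) ⁻¹' U ⊆ {ω | ∀ i ≤ k, c ω i = c τ i} := by
          intro ω hω i _
          rcases i with _ | i
          · rw [hc0, hc0]
          · exact hall i ω hω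
        refine (measure_mono hsub).trans ((hcyl (c τ) k).trans ?_)
        refine ENNReal.ofReal_le_ofReal (mul_le_mul_of_nonneg_left ?_ hC.le)
        rw [← Real.rpow_natCast, ← Real.rpow_mul (by norm_num), mul_comm,
          Real.rpow_mul (by norm_num), Real.rpow_natCast]
        refine Real.rpow_le_rpow (hR _ _).le ?_ hs.le
        have := Finset.prod_le_prod (s := Finset.range k) (f := fun i => r (c τ i) (c τ (i + 1)))
          (g := fun _ => 1 / 4) (fun i _ => (hr _ _).1.le) (fun i _ => (hr _ _).2)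
        simpa using this
      rw [h0]; simp
  have hle := OuterMeasure.le_mkMetric (fun d => d ^ s)
    (ENNReal.ofReal (δ ^ s / C) • OuterMeasure.map (π ∘ c) μ.toOuterMeasure) 1 one_pos
    (fun U _ => key U)
  have h2 := hle E
  rw [OuterMeasure.coe_mkMetric] at h2
  have h3 : (π ∘ c) ⁻¹' E = univ := eq_univ_of_forall fun _ => hE _
  have h4 : (ENNReal.ofReal (δ ^ s / C) • OuterMeasure.map (π ∘ c) μ.toOuterMeasure) E =
      ENNReal.ofReal (δ ^ s / C) := by
    rw [smul_apply, OuterMeasure.map_apply, h3]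
    simp
  rw [h4] at h2
  have h5 : Measure.hausdorffMeasure s E ≠ 0 :=
    ne_of_gt (lt_of_lt_of_le (ENNReal.ofReal_pos.2 (by positivity)) h2)
  lift s to NNReal using hs.le
  rw [ENNReal.ofReal_coe_nnreal]
  exact le_dimH_of_hausdorffMeasure_ne_zero h5

theorem fix {T : Type} (σ : T → T) (φ : T → ℝ → ℝ) (L : ℝ) (hL : L < 1) (hL0 : 0 ≤ L)
    (hm : ∀ t, MapsTo (φ t) (Icc 0 3) (Icc 0 3))
    (hl : ∀ t x y, |φ t x - φ t y| ≤ L * |x - y|) :
    ∃ u : T → ℝ, (∀ t, u t ∈ Icc (0 : ℝ) 3) ∧ ∀ t, u t = φ t (u (σ t)) := by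
  obtain ⟨v, hv0, hv⟩ : ∃ v : ℕ → T → ℝ, (∀ t, v 0 t = 0) ∧
      ∀ n t, v (n + 1) t = φ t (v n (σ t)) :=
    ⟨fun n => Nat.rec (fun _ => 0) (fun _ w t => φ t (w (σ t))) n, fun _ => rfl, fun _ _ => rfl⟩
  have h1 : ∀ n t, v n t ∈ Icc (0 : ℝ) 3 := by
    intro n
    induction n with
    | zero => intro t; simp [hv0]
    | succ n ih => intro t; rw [hv]; exact hm t (ih _)
  have h2 : ∀ n t, dist (v n t) (v (n + 1) t) ≤ 3 * L ^ n := by
    intro n
    induction n with
    | zero =>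
      intro t
      have a := h1 0 t
      have b := h1 1 t
      rw [Real.dist_eq, abs_le]; constructor <;> simp <;> linarith [a.1, a.2, b.1, b.2]
    | succ n ih =>
      intro t
      rw [hv, hv (n + 1), Real.dist_eq]
      refine (hl t _ _).trans ?_
      have := ih (σ t)
      rw [Real.dist_eq] at this
      rw [pow_succ]; nlinarith
  have h3 : ∀ t, ∃ x, Tendsto (fun n => v n t) atTop (𝓝 x) := fun t =>
    cauchySeq_tendsto_of_complete (cauchySeq_of_le_geometric L 3 hL (fun n => h2 n t))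
  choose u hu using h3
  have h4 : ∀ t, u t ∈ Icc (0 : ℝ) 3 := fun t =>
    isClosed_Icc.mem_of_tendsto (hu t) (Eventually.of_forall fun n => h1 n t)
  refine ⟨u, h4, fun t => ?_⟩
  refine tendsto_nhds_unique ((tendsto_add_atTop_iff_nat 1).2 (hu t)) ?_
  rw [tendsto_iff_dist_tendsto_zero]
  have := (tendsto_iff_dist_tendsto_zero.1 (hu (σ t))).const_mul L
  rw [mul_zero] at this
  simp only [hv]
  exact squeeze_zero (fun _ => dist_nonneg) (fun n => hl t _ _) this

theorem kakeya (c q y : ℝ) (hc : 0 < c) (hq : 1 / 2 ≤ q) (hq1 : q < 1) (hy : 0 ≤ y)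
    (hy1 : y ≤ c / (1 - q)) : ∃ S : ℕ → Bool,
      Tendsto (fun m => ∑ n ∈ Finset.range m, if S n then c * q ^ n else 0) atTop (𝓝 y) := by
  classical
  obtain ⟨z, hz0, hz⟩ : ∃ z : ℕ → ℝ, z 0 = y ∧
      ∀ n, z (n + 1) = if c * q ^ n ≤ z n then z n - c * q ^ n else z n :=
    ⟨fun n => Nat.rec y (fun n x => if c * q ^ n ≤ x then x - c * q ^ n else x) n, rfl,
      fun _ => rfl⟩
  have h1 : 0 < 1 - q := by linarith
  have inv : ∀ n, 0 ≤ z n ∧ z n * (1 - q) ≤ c * q ^ n := by
    intro n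
    induction n with
    | zero => rw [hz0, pow_zero, mul_one]; exact ⟨hy, (le_div_iff₀ h1).1 hy1⟩
    | succ n ih =>
      have : 0 < c * q ^ n := by positivity
      rw [hz, pow_succ, ← mul_assoc]
      split_ifs with h
      · constructor <;> nlinarith [ih.1, ih.2]
      · constructor <;> nlinarith [ih.1, ih.2]
  refine ⟨fun n => decide (c * q ^ n ≤ z n), ?_⟩
  have e : ∀ m, (∑ n ∈ Finset.range m, if decide (c * q ^ n ≤ z n) then c * q ^ n else 0) =
      y - z m := by
    intro m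
    induction m with
    | zero => simp [hz0]
    | succ m ih =>
      rw [Finset.sum_range_succ, ih, hz]
      simp only [decide_eq_true_eq]
      split_ifs <;> ring
  simp only [e]
  have h2 : Tendsto z atTop (𝓝 0) := by
    have := ((tendsto_pow_atTop_nhds_zero_of_lt_one (by linarith) hq1).const_mul c).div_const (1 - q)
    rw [mul_zero, zero_div] at this
    exact squeeze_zero (fun n => (inv n).1) (fun n => (le_div_iff₀ h1).2 (inv n).2) this
  simpa using h2.const_sub y

end Pool.Agent.H.MP_5d65a3_an
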