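import Pool.Agent.H.MP_5d65a3_an.A

set_option autoImplicit false

namespace Pool.Agent.H.MP_5d65a3_an

open Set Metric Filter Topology MeasureTheory
open scoped ENNReal NNReal

def cp (u : ℕ → ℝ → ℝ) (l : List ℕ) : ℝ → ℝ := l.foldr (fun i h => u i ∘ h) id

def Lam (X : Set ℝ) (u : ℕ → ℝ → ℝ) (A : Set ℕ) : Set ℝ :=
  {x | ∃ ω : ℕ → ℕ, (∀ n, ω n ∈ A) ∧ ∀ N, x ∈ cp u (List.ofFn fun k : Fin N => ω k) '' X}

def DS (X : Set ℝ) (u : ℕ → ℝ → ℝ) : Set ℝ :=
  {s | 0 ≤ s ∧ ∃ A : Set ℕ, dimH (Lam X u A) = ENNReal.ofReal s}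

def Dom (X V : Set ℝ) : Prop :=
  X.Nonempty ∧ IsCompact X ∧ closure (interior X) = X ∧ IsOpen V ∧ IsConnected V ∧
    Bornology.IsBounded V ∧ (∃ δ : ℝ, 0 < δ ∧ thickening δ X ⊆ V) ∧
    ∃ γ : ℝ, 0 < γ ∧ ∀ x ∈ X, ∀ r ∈ Ioo (0 : ℝ) 1, ENNReal.ofReal (γ * r) ≤ volume (X ∩ ball x r)

def Conf (V : Set ℝ) (f : ℝ → ℝ) : Prop :=
  ContDiffOn ℝ (⊤ : ℕ∞) f V ∧ (∀ x ∈ V, deriv f x ≠ 0) ∧ InjOn f V ∧ IsOpen (f '' V) ∧ MapsTo f V V

def CIFS (X V : Set ℝ) (u : ℕ → ℝ → ℝ) : Prop :=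
  Dom X V ∧ (∀ a, MapsTo (u a) X X ∧ Conf V (u a)) ∧
    (∀ a b, a ≠ b → Disjoint (u a '' interior X) (u b '' interior X)) ∧
    (∃ L : ℝ, L < 1 ∧ ∀ a, ∀ x ∈ V, |deriv (u a) x| ≤ L) ∧
    (∀ ε : ℝ, 0 < ε → ∀ᶠ a in atTop, ∀ x ∈ V, |deriv (u a) x| ≤ ε) ∧
    ∃ C : ℝ, 1 ≤ C ∧ ∀ l : List ℕ, ∀ x ∈ V, ∀ y ∈ V, |deriv (cp u l) x| ≤ C * |deriv (cp u l) y|

def I (j : Bool) : Set ℝ := if j then Icc 2 3 else Icc 0 1

def XX : Set ℝ := Icc 0 1 ∪ Icc 2 3

def cl (a : ℕ) : Bool := decide (a = 0)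

structure OK (u D : ℕ → ℝ → ℝ) (sl : ℕ → Bool → ℝ) : Prop where
  der : ∀ a x, HasStrictDerivAt (u a) (D a x) x
  smooth : ∀ a, ContDiff ℝ (⊤ : ℕ∞) (u a)
  pos : ∀ a j, 0 < sl a j
  le : ∀ a j, sl a j ≤ (1 / 2) ^ a / 25
  btw : ∀ a x, min (sl a false) (sl a true) ≤ D a x ∧ D a x ≤ max (sl a false) (sl a true)
  aff : ∀ a j, ∀ x ∈ I j, D a x = sl a j
  ctr : ∀ a, u a 0 = if a = 0 then 5 / 2 else (1 / 2) ^ a

theorem exists_OK (sl : ℕ → Bool → ℝ) (pos : ∀ a j, 0 < sl a j)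
    (le : ∀ a j, sl a j ≤ (1 / 2) ^ a / 25) : ∃ u D, OK u D sl := by
  have hT : Continuous fun t : ℝ => Real.smoothTransition (t - 1) :=
    Real.smoothTransition.continuous.comp (by fun_prop)
  have der : ∀ a x, HasStrictDerivAt (fun x => (if a = 0 then 5 / 2 else (1 / 2) ^ a) + sl a false * x
      + (sl a true - sl a false) * ∫ t in (0 : ℝ)..x, Real.smoothTransition (t - 1))
      (sl a false + (sl a true - sl a false) * Real.smoothTransition (x - 1)) x := fun a x => by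
    have := (((hasStrictDerivAt_id x).const_mul (sl a false)).const_add
      (if a = 0 then 5 / 2 else (1 / 2) ^ a)).add
      ((hT.integral_hasStrictDerivAt 0 x).const_mul (sl a true - sl a false))
    rw [mul_one] at this
    exact this
  refine ⟨_, _, der, fun a => ?_, pos, le, fun a x => ?_, fun a j x hx => ?_, fun a => by simp⟩
  · rw [contDiff_infty_iff_deriv]
    refine ⟨fun x => (der a x).hasDerivAt.differentiableAt, ?_⟩
    rw [funext fun x => (der a x).hasDerivAt.deriv]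
    exact contDiff_const.add (contDiff_const.mul
      (Real.smoothTransition.contDiff.comp (contDiff_id.sub contDiff_const)))
  · have h1 := Real.smoothTransition.nonneg (x - 1)
    have h2 := Real.smoothTransition.le_one (x - 1)
    rcases le_total (sl a false) (sl a true) with h | h
    · rw [min_eq_left h, max_eq_right h]; constructor <;> nlinarith
    · rw [min_eq_right h, max_eq_left h]; constructor <;> nlinarith
  · cases j
    · rw [Real.smoothTransition.zero_of_nonpos (by linarith [hx.2])]; ring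
    · rw [Real.smoothTransition.one_of_one_le (by linarith [hx.1])]; ring

variable {u D : ℕ → ℝ → ℝ} {sl : ℕ → Bool → ℝ}

theorem cp_cons (i : ℕ) (l : List ℕ) : cp u (i :: l) = u i ∘ cp u l := rfl

theorem OK.mvt (h : OK u D sl) (a : ℕ) (x y : ℝ) :
    ∃ ξ ∈ uIcc x y, u a x - u a y = D a ξ * (x - y) := by
  have key : ∀ x y, x < y → ∃ ξ ∈ Icc x y, u a x - u a y = D a ξ * (x - y) := by
    intro x y hxy
    obtain ⟨ξ, h1, h2⟩ := exists_hasDerivAt_eq_slope (u a) (D a) hxy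
      (h.smooth a).continuous.continuousOn (fun z _ => (h.der a z).hasDerivAt)
    refine ⟨ξ, Ioo_subset_Icc_self h1, ?_⟩
    rw [h2]; field_simp [sub_ne_zero.2 hxy.ne']; ring
  rcases lt_trichotomy x y with hxy | rfl | hxy
  · rw [uIcc_of_le hxy.le]; exact key x y hxy
  · exact ⟨x, by simp, by simp⟩
  · obtain ⟨ξ, h1, h2⟩ := key y x hxy
    exact ⟨ξ, by rwa [uIcc_of_ge hxy.le], by linarith⟩

theorem OK.Dpos (h : OK u D sl) (a : ℕ) (x : ℝ) : 0 < D a x :=
  (lt_min (h.pos _ _) (h.pos _ _)).trans_le (h.btw a x).1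

theorem OK.Dle (h : OK u D sl) (a : ℕ) (x : ℝ) : D a x ≤ (1 / 2) ^ a / 25 :=
  (h.btw a x).2.trans (max_le (h.le _ _) (h.le _ _))

theorem hp1 (a : ℕ) : (0 : ℝ) < (1 / 2) ^ a ∧ (1 / 2 : ℝ) ^ a ≤ 1 :=
  ⟨by positivity, pow_le_one₀ (by norm_num) (by norm_num)⟩

theorem OK.lip (h : OK u D sl) (a : ℕ) (x y : ℝ) :
    |u a x - u a y| ≤ (1 / 2) ^ a / 25 * |x - y| ∧
      min (sl a false) (sl a true) * |x - y| ≤ |u a x - u a y| := by
  obtain ⟨ξ, -, e⟩ := h.mvt a x y
  rw [e, abs_mul, abs_of_pos (h.Dpos a ξ)]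
  exact ⟨mul_le_mul_of_nonneg_right (h.Dle a ξ) (abs_nonneg _),
    mul_le_mul_of_nonneg_right (h.btw a ξ).1 (abs_nonneg _)⟩

theorem OK.affine (h : OK u D sl) (a : ℕ) (j : Bool) {x y : ℝ} (hx : x ∈ I j) (hy : y ∈ I j) :
    |u a x - u a y| = sl a j * |x - y| := by
  obtain ⟨ξ, h1, e⟩ := h.mvt a x y
  have : ξ ∈ I j := by
    cases j
    · exact (ordConnected_Icc (a := (0 : ℝ)) (b := 1)).uIcc_subset hx hy h1
    · exact (ordConnected_Icc (a := (2 : ℝ)) (b := 3)).uIcc_subset hx hy h1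
  rw [e, abs_mul, h.aff a j ξ this, abs_of_pos (h.pos _ _)]

theorem OK.near (h : OK u D sl) (a : ℕ) {x : ℝ} (hx : x ∈ Icc (-1 : ℝ) 4) :
    |u a x - (if a = 0 then 5 / 2 else (1 / 2) ^ a)| ≤ (1 / 2) ^ a * (4 / 25) := by
  have h1 := (h.lip a x 0).1
  rw [h.ctr, sub_zero] at h1
  have : |x| ≤ 4 := abs_le.2 ⟨by linarith [hx.1], hx.2⟩
  nlinarith [hp1 a]

theorem OK.mem (h : OK u D sl) (a : ℕ) {x : ℝ} (hx : x ∈ Icc (-1 : ℝ) 4) : u a x ∈ I (cl a) := by
  have h1 := abs_le.1 (h.near a hx)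
  rcases a with _ | a
  · simp only [if_true, pow_zero] at h1
    exact ⟨by linarith [h1.1], by linarith [h1.2]⟩
  · rw [if_neg (Nat.succ_ne_zero a), pow_succ] at h1
    have := hp1 a
    exact ⟨by linarith [h1.1], by linarith [h1.2]⟩

theorem I_sub (j : Bool) : I j ⊆ XX := by
  cases j
  · exact subset_union_left
  · exact subset_union_right

theorem XX_sub : XX ⊆ Icc 0 3 :=
  union_subset (Icc_subset_Icc le_rfl (by norm_num)) (Icc_subset_Icc (by norm_num) le_rfl)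

theorem sub4 : Icc (0 : ℝ) 3 ⊆ Icc (-1) 4 := Icc_subset_Icc (by norm_num) (by norm_num)

theorem OK.sep (h : OK u D sl) {a b : ℕ} (hab : a < b) {x y : ℝ} (hx : x ∈ Icc (-1 : ℝ) 4)
    (hy : y ∈ Icc (-1 : ℝ) 4) : (1 / 2) ^ b / 4 ≤ u a x - u b y := by
  have h1 := abs_le.1 (h.near a hx)
  have h2 := abs_le.1 (h.near b hy)
  rw [if_neg (by omega)] at h2
  have h3 : (1 / 2 : ℝ) ^ b ≤ (1 / 2) ^ (a + 1) :=
    pow_le_pow_of_le_one (by norm_num) (by norm_num) hab
  rw [pow_succ] at h3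
  have := hp1 a
  have := hp1 b
  split_ifs at h1 <;> linarith [h1.1, h2.2]

theorem OK.sep' (h : OK u D sl) {a b m : ℕ} (hab : a ≠ b) (ha : a ≤ m) (hb : b ≤ m) {x y : ℝ}
    (hx : x ∈ Icc (-1 : ℝ) 4) (hy : y ∈ Icc (-1 : ℝ) 4) : (1 / 2) ^ m / 4 ≤ |u a x - u b y| := by
  have h3 : ∀ b ≤ m, (1 / 2 : ℝ) ^ m / 4 ≤ (1 / 2) ^ b / 4 := fun b hb => by
    have := pow_le_pow_of_le_one (by norm_num : (0 : ℝ) ≤ 1 / 2) (by norm_num) hb
    linarith
  rcases lt_or_gt_of_ne hab with h1 | h1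
  · exact ((h3 b hb).trans (h.sep h1 hx hy)).trans (le_abs_self _)
  · rw [abs_sub_comm]; exact ((h3 a ha).trans (h.sep h1 hy hx)).trans (le_abs_self _)

theorem dom : Dom XX (Ioo (-1) 4) := by
  refine ⟨⟨0, Or.inl (by simp)⟩, isCompact_Icc.union isCompact_Icc, ?_, isOpen_Ioo,
    isConnected_Ioo (by norm_num), isBounded_Ioo _ _, ⟨1, one_pos, fun x hx => ?_⟩,
    1 / 2, by norm_num, fun x hx r hr => ?_⟩
  · refine Subset.antisymm ((isClosed_Icc.union isClosed_Icc).closure_subset_iff.2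
      interior_subset) (union_subset ?_ ?_)
    · rw [← closure_Ioo (by norm_num), ← interior_Icc]
      exact closure_mono (interior_mono subset_union_left)
    · rw [← closure_Ioo (by norm_num), ← interior_Icc]
      exact closure_mono (interior_mono subset_union_right)
  · obtain ⟨z, hz, hd⟩ := mem_thickening_iff.1 hx
    have := XX_sub hz
    rw [Real.dist_eq, abs_lt] at hd
    exact ⟨by linarith [this.1], by linarith [this.2]⟩
  · have key : ∀ p : ℝ, Icc p (p + 1) ⊆ XX → x ∈ Icc p (p + 1) →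
        ENNReal.ofReal (1 / 2 * r) ≤ volume (XX ∩ ball x r) := by
      intro p hp hx
      rcases le_total x (p + 1 / 2) with h | h
      · refine le_trans (le_of_eq ?_) (measure_mono (s := Icc x (x + 1 / 2 * r)) fun z hz =>
          ⟨hp ⟨by linarith [hx.1, hz.1], by linarith [hz.2, hr.2]⟩, ?_⟩)
        · simp
        · rw [mem_ball, Real.dist_eq, abs_lt]; constructor <;> linarith [hz.1, hz.2, hr.1]
      · refine le_trans (le_of_eq ?_) (measure_mono (s := Icc (x - 1 / 2 * r) x) fun z hz =>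
          ⟨hp ⟨by linarith [hr.2, hz.1], by linarith [hz.2, hx.2]⟩, ?_⟩)
        · simp
        · rw [mem_ball, Real.dist_eq, abs_lt]; constructor <;> linarith [hz.1, hz.2, hr.1]
    rcases hx with hx | hx
    · exact key 0 (by rw [zero_add]; exact subset_union_left) (by rwa [zero_add])
    · exact key 2 (by norm_num; exact subset_union_right) (by norm_num; exact hx)

theorem OK.cifs (h : OK u D sl) (C : ℝ) (hC : 1 ≤ C)
    (hC' : ∀ a, max (sl a false) (sl a true) ≤ C * min (sl a false) (sl a true)) :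
    CIFS XX (Ioo (-1) 4) u := by
  have hd : ∀ a x, deriv (u a) x = D a x := fun a x => (h.der a x).hasDerivAt.deriv
  have hV : ∀ a, MapsTo (u a) (Ioo (-1) 4) (Ioo (-1) 4) := fun a x hx => by
    have := XX_sub (I_sub _ (h.mem a (Ioo_subset_Icc_self hx)))
    exact ⟨by linarith [this.1], by linarith [this.2]⟩
  refine ⟨dom, fun a => ⟨fun x hx => I_sub _ (h.mem a (sub4 (XX_sub hx))),
    (h.smooth a).contDiffOn, fun x _ => by rw [hd]; exact (h.Dpos a x).ne', fun x _ y _ e => ?_,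
    isOpenMap_of_hasStrictDerivAt (h.der a) (fun x => (h.Dpos a x).ne') _ isOpen_Ioo, hV a⟩,
    fun a b hab => ?_, ⟨1 / 25, by norm_num, fun a x _ => ?_⟩, fun ε hε => ?_, C, hC, ?_⟩
  · have := (h.lip a x y).2
    rw [e, sub_self, abs_zero] at this
    have h2 := lt_min (h.pos a false) (h.pos a true)
    have : |x - y| = 0 := le_antisymm (by by_contra hc; nlinarith) (abs_nonneg _)
    exact sub_eq_zero.1 (abs_eq_zero.1 this)
  · rw [Set.disjoint_left]
    rintro _ ⟨x, hx, rfl⟩ ⟨y, hy, e⟩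
    have := h.sep' hab (le_max_left a b) (le_max_right a b) (sub4 (XX_sub (interior_subset hx)))
      (sub4 (XX_sub (interior_subset hy)))
    rw [e, sub_self, abs_zero] at this
    linarith [hp1 (max a b)]
  · rw [hd, abs_of_pos (h.Dpos a x)]
    linarith [h.Dle a x, hp1 a]
  · filter_upwards [(tendsto_pow_atTop_nhds_zero_of_lt_one (r := (1 / 2 : ℝ)) (by norm_num)
      (by norm_num)).eventually (gt_mem_nhds hε)] with a ha x _
    rw [hd, abs_of_pos (h.Dpos a x)]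
    linarith [h.Dle a x, hp1 a]
  · have hdiff : ∀ l x, DifferentiableAt ℝ (cp u l) x := by
      intro l
      induction l with
      | nil => exact fun x => differentiableAt_id
      | cons a l ih => exact fun x => (h.der a _).hasDerivAt.differentiableAt.comp x (ih x)
    have hmap : ∀ l, MapsTo (cp u l) (Ioo (-1) 4) (Ioo (-1) 4) := by
      intro l
      induction l with
      | nil => exact mapsTo_id _
      | cons a l ih => exact (hV a).comp ih
    have hch : ∀ a l x, |deriv (cp u (a :: l)) x| = D a (cp u l x) * |deriv (cp u l) x| := by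
      intro a l x
      rw [cp_cons, deriv_comp x (h.der a _).hasDerivAt.differentiableAt (hdiff l x), hd, abs_mul,
        abs_of_pos (h.Dpos _ _)]
    intro l
    induction l with
    | nil =>
      intro x _ y _
      show |deriv id x| ≤ C * |deriv id y|
      simpa using hC
    | cons a l ih =>
      intro x hx y hy
      rw [hch, hch]
      rcases l with _ | ⟨b, l⟩
      · show D a x * |deriv id x| ≤ C * (D a y * |deriv id y|)
        simp only [deriv_id, abs_one, mul_one]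
        exact (h.btw a x).2.trans ((hC' a).trans
          (mul_le_mul_of_nonneg_left (h.btw a y).1 (by linarith)))
      · have e : ∀ x ∈ Ioo (-1 : ℝ) 4, D a (cp u (b :: l) x) = sl a (cl b) := fun x hx =>
          h.aff a _ _ (h.mem b (Ioo_subset_Icc_self (hmap l hx)))
        rw [e x hx, e y hy, mul_left_comm]
        exact mul_le_mul_of_nonneg_left (ih x hx y hy) (h.pos _ _).le

end Pool.Agent.H.MP_5d65a3_an
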