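import Pool.Agent.H.MP_5d65a3_an.B

set_option autoImplicit false

namespace Pool.Agent.H.MP_5d65a3_an

open Set Metric Filter Topology MeasureTheory
open scoped ENNReal NNReal

variable {u D : ℕ → ℝ → ℝ} {sl : ℕ → Bool → ℝ}

def cls : List ℕ → Bool → Bool
  | [], k => k
  | a :: _, _ => cl a

def PP (sl : ℕ → Bool → ℝ) : List ℕ → Bool → ℝ
  | [], _ => 1
  | a :: l, k => sl a (cls l k) * PP sl l k

theorem OK.le25 (h : OK u D sl) (a : ℕ) (j : Bool) : sl a j ≤ 1 / 25 := by
  linarith [h.le a j, hp1 a]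

theorem OK.PP_bd (h : OK u D sl) (l : List ℕ) (k : Bool) :
    0 < PP sl l k ∧ PP sl l k ≤ (1 / 25) ^ l.length := by
  induction l with
  | nil => simp [PP]
  | cons a l ih =>
    refine ⟨mul_pos (h.pos _ _) ih.1, ?_⟩
    rw [List.length_cons, pow_succ']
    exact mul_le_mul (h.le25 _ _) ih.2 ih.1.le (by norm_num)

theorem OK.cp_aff (h : OK u D sl) (l : List ℕ) (k : Bool) :
    (∀ x ∈ I k, cp u l x ∈ I (cls l k)) ∧
      ∀ x ∈ I k, ∀ y ∈ I k, |cp u l x - cp u l y| = PP sl l k * |x - y| := by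
  induction l with
  | nil => exact ⟨fun x hx => hx, fun x _ y _ => by simp [cp, PP]⟩
  | cons a l ih =>
    refine ⟨fun x hx => h.mem a (sub4 (XX_sub (I_sub _ (ih.1 x hx)))), fun x hx y hy => ?_⟩
    rw [cp_cons, Function.comp, Function.comp, h.affine a _ (ih.1 x hx) (ih.1 y hy), ih.2 x hx y hy,
      PP, mul_assoc]

open Classical in
theorem OK.upper (h : OK u D sl) (A : Set ℕ) {s : ℝ} (hs : 0 ≤ s) (v : Bool → ℝ) (hv0 : ∀ j, 0 < v j)
    (hv : ∀ j m, (∑ a ∈ Finset.range m, if a ∈ A then sl a j ^ s * v (cl a) else 0) ≤ v j) :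
    dimH (Lam XX u A) ≤ ENNReal.ofReal s := by
  have hv' : ∀ j, ∑' a : A, ENNReal.ofReal (sl a j ^ s * v (cl a)) ≤ ENNReal.ofReal (v j) := by
    intro j
    rw [tsum_subtype A (fun a => ENNReal.ofReal (sl a j ^ s * v (cl a)))]
    refine ENNReal.tsum_le_of_sum_range_le fun m => le_trans (le_of_eq ?_)
      (ENNReal.ofReal_le_ofReal (hv j m))
    rw [ENNReal.ofReal_sum_of_nonneg (fun a _ => by
      have := h.pos a j
      have := hv0 (cl a)
      split_ifs <;> positivity)]
    refine Finset.sum_congr rfl fun a _ => ?_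
    rw [Set.indicator_apply]
    split_ifs <;> simp
  have W : ∀ n k, ∑' w : Fin n → A, ENNReal.ofReal (PP sl (List.ofFn fun i => (w i : ℕ)) k ^ s *
      v (cls (List.ofFn fun i => (w i : ℕ)) k)) ≤ ENNReal.ofReal (v k) := by
    intro n k
    induction n with
    | zero => simp [PP, cls]
    | succ n ih =>
      rw [← (Fin.consEquiv (fun _ : Fin (n + 1) => A)).tsum_eq, ENNReal.tsum_prod',
        ENNReal.tsum_comm]
      refine le_trans (ENNReal.tsum_le_tsum fun w => ?_) ih
      have hP := (h.PP_bd (List.ofFn fun i => (w i : ℕ)) k).1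
      rw [ENNReal.ofReal_mul (by positivity)]
      refine le_trans (le_of_eq ?_) (mul_le_mul_right (hv' _) _)
      rw [← ENNReal.tsum_mul_left]
      refine tsum_congr fun a => ?_
      rw [← ENNReal.ofReal_mul (by positivity)]
      simp only [Fin.consEquiv, Equiv.coe_fn_mk, List.ofFn_succ, Fin.cons_zero, Fin.cons_succ, PP,
        cls]
      rw [Real.mul_rpow (h.pos _ _).le hP.le]
      congr 1; ring
  have hd : ∀ l k, ediam (cp u l '' I k) ≤ ENNReal.ofReal (PP sl l k) := by
    intro l k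
    refine ediam_le ?_
    rintro _ ⟨x, hx, rfl⟩ _ ⟨y, hy, rfl⟩
    rw [edist_dist, Real.dist_eq, (h.cp_aff l k).2 x hx y hy]
    refine ENNReal.ofReal_le_ofReal (mul_le_of_le_one_right (h.PP_bd l k).1.le ?_)
    cases k <;> (rw [abs_le]; constructor <;> linarith [hx.1, hx.2, hy.1, hy.2])
  have h1 := Measure.hausdorffMeasure_le_liminf_tsum s (Lam XX u A) (l := atTop)
    (fun n : ℕ => ENNReal.ofReal ((1 / 25) ^ n))
    (by rw [← ENNReal.ofReal_zero]
        exact ENNReal.tendsto_ofReal (tendsto_pow_atTop_nhds_zero_of_lt_one (by norm_num)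
          (by norm_num)))
    (fun n (w : Bool × (Fin n → A)) => cp u (List.ofFn fun i => (w.2 i : ℕ)) '' I w.1)
    (Eventually.of_forall (fun n w => (hd _ _).trans (ENNReal.ofReal_le_ofReal (by
      simpa using (h.PP_bd (List.ofFn fun i => (w.2 i : ℕ)) w.1).2))))
    (Eventually.of_forall (fun n x hx => by
      obtain ⟨ω, hω, hx⟩ := hx
      obtain ⟨y, hy | hy, e⟩ := hx n
      · exact mem_iUnion.2 ⟨(false, fun i => ⟨ω i, hω i⟩), y, hy, e⟩
      · exact mem_iUnion.2 ⟨(true, fun i => ⟨ω i, hω i⟩), y, hy, e⟩))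
  set c := min (v false) (v true) with hc
  have hc0 : 0 < c := lt_min (hv0 _) (hv0 _)
  have hc1 : ∀ j, c ≤ v j := fun j => by cases j <;> simp [hc]
  have h2 : ∀ n, ∑' w : Bool × (Fin n → A),
      ediam (cp u (List.ofFn fun i => (w.2 i : ℕ)) '' I w.1) ^ s ≤
      ∑' k : Bool, ENNReal.ofReal (1 / c) * ENNReal.ofReal (v k) := by
    intro n
    rw [ENNReal.tsum_prod']
    refine ENNReal.tsum_le_tsum fun k => le_trans ?_ (mul_le_mul_right (W n k) _)
    rw [← ENNReal.tsum_mul_left]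
    refine ENNReal.tsum_le_tsum fun w => (ENNReal.rpow_le_rpow (hd _ _) hs).trans ?_
    have hP := (h.PP_bd (List.ofFn fun i => (w i : ℕ)) k).1
    rw [ENNReal.ofReal_rpow_of_nonneg hP.le hs, ← ENNReal.ofReal_mul (by positivity)]
    refine ENNReal.ofReal_le_ofReal ?_
    rw [one_div_mul_eq_div, le_div_iff₀ hc0]
    exact mul_le_mul_of_nonneg_left (hc1 _) (by positivity)
  have h3 := h1.trans (liminf_le_of_frequently_le' (Frequently.of_forall h2))
  lift s to NNReal using hs
  rw [ENNReal.ofReal_coe_nnreal]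
  refine dimH_le_of_hausdorffMeasure_ne_top (ne_top_of_le_ne_top ?_ h3)
  rw [tsum_bool]
  finiteness

open Classical in
theorem OK.lower (h : OK u D sl) (A : Set ℕ) (hA : 0 ∈ A) {s : ℝ} (hs : 0 < s) (w : Bool → ℝ)
    (hw0 : ∀ j, 0 < w j) (m : ℕ)
    (hw : ∀ j, w j ≤ ∑ a ∈ Finset.range (m + 1), if a ∈ A ∧ cl a = j then
      sl a false ^ s * w false + sl a true ^ s * w true else 0) :
    ENNReal.ofReal s ≤ dimH (Lam XX u A) := by
  set G := (Finset.range (m + 1)).filter (· ∈ A) with hG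
  have hGA : ∀ a : G, (a : ℕ) ∈ A ∧ (a : ℕ) ≤ m := fun a => by
    have := Finset.mem_filter.1 a.2
    exact ⟨this.2, Nat.lt_succ_iff.1 (Finset.mem_range.1 this.1)⟩
  set H : ℕ → ℝ := fun a => sl a false ^ s * w false + sl a true ^ s * w true with hH
  have hs0 : ∀ a j, 0 < sl a j ^ s := fun a j => Real.rpow_pos_of_pos (h.pos a j) s
  have hH0 : ∀ a, 0 < H a := fun a => add_pos (mul_pos (hs0 _ _) (hw0 _)) (mul_pos (hs0 _ _) (hw0 _))
  set N : ℕ → ℝ := fun a => ∑ b : G, sl a (cl b) ^ s * H b with hN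
  have hNH : ∀ a, H a ≤ N a := by
    intro a
    have e : N a = sl a false ^ s * (∑ b ∈ Finset.range (m + 1), if b ∈ A ∧ cl b = false then H b
        else 0) + sl a true ^ s * (∑ b ∈ Finset.range (m + 1), if b ∈ A ∧ cl b = true then H b
        else 0) := by
      simp only [hN]
      rw [Finset.sum_coe_sort G (fun b => sl a (cl b) ^ s * H b), hG, Finset.sum_filter,
        Finset.mul_sum, Finset.mul_sum, ← Finset.sum_add_distrib]
      refine Finset.sum_congr rfl fun b _ => ?_
      by_cases hb : b ∈ A <;> cases cl b <;> simp [hb]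
    rw [e]
    exact add_le_add (mul_le_mul_of_nonneg_left (hw false) (hs0 _ _).le)
      (mul_le_mul_of_nonneg_left (hw true) (hs0 _ _).le)
  have hN0 : ∀ a, 0 < N a := fun a => (hH0 a).trans_le (hNH a)
  obtain ⟨π, hπ, hrec⟩ := fix (T := ℕ → G) (fun ω n => ω (n + 1)) (fun ω => u (ω 0)) (1 / 25)
    (by norm_num) (by norm_num) (fun ω x hx => XX_sub (I_sub _ (h.mem _ (sub4 hx))))
    (fun ω x y => (h.lip _ x y).1.trans (mul_le_mul_of_nonneg_right (by linarith [hp1 (ω 0)])
      (abs_nonneg _)))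
  have hI : ∀ ω, π ω ∈ I (cl (ω 0)) := fun ω => by rw [hrec]; exact h.mem _ (sub4 (hπ _))
  have hne : (Finset.univ : Finset G).Nonempty := ⟨⟨0, by simp [hG, hA]⟩, by simp⟩
  set lo := Finset.univ.inf' hne fun a : G => min (sl a false) (sl a true) with hlo
  have hlo0 : 0 < lo := (Finset.lt_inf'_iff _).2 fun a _ => lt_min (h.pos _ _) (h.pos _ _)
  set c1 := Finset.univ.inf' hne fun a : G => H a with hc1
  have hc10 : 0 < c1 := (Finset.lt_inf'_iff _).2 fun a _ => hH0 a
  set c2 := Finset.univ.sup' hne fun a : G => H a with hc2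
  have hc2' : ∀ a : G, H a ≤ c2 := fun a => Finset.le_sup' (fun a : G => H a) (by simp)
  refine moranM (F := G) ⟨0, by simp [hG, hA]⟩ (fun a b => sl a (cl b))
    (fun a b => sl a (cl b) ^ s * H b / N a)
    (fun a b => ⟨h.pos _ _, (h.le25 _ _).trans (by norm_num)⟩)
    (fun a b => (div_pos (mul_pos (hs0 _ _) (hH0 _)) (hN0 _)).le)
    (fun a => by rw [← Finset.sum_div]; exact div_self (hN0 a).ne') (c2 / c1)
    (div_pos ((hH0 _).trans_le (hc2' ⟨0, by simp [hG, hA]⟩)) hc10) hs (fun τ k => ?_) π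
    (lo * ((1 / 2) ^ m / 4)) (by positivity) (fun k => ?_) _ (fun ω => ?_)
  · have key : ∏ i ∈ Finset.range k, sl (τ i) (cl (τ (i + 1))) ^ s * H (τ (i + 1)) / N (τ i) ≤
        H (τ k) / H (τ 0) * (∏ i ∈ Finset.range k, sl (τ i) (cl (τ (i + 1)))) ^ s := by
      induction k with
      | zero => simp [(hH0 _).ne']
      | succ k ih =>
        have hp : 0 < ∏ i ∈ Finset.range k, sl (τ i) (cl (τ (i + 1))) :=
          Finset.prod_pos fun i _ => h.pos _ _
        rw [Finset.prod_range_succ, Finset.prod_range_succ, Real.mul_rpow hp.le (h.pos _ _).le]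
        have a1 := hH0 (τ k)
        have a2 := hH0 (τ (k + 1))
        have a3 := hH0 (τ 0)
        have a4 := hs0 (τ k) (cl (τ (k + 1)))
        calc _ ≤ H (τ k) / H (τ 0) * (∏ i ∈ Finset.range k, sl (τ i) (cl (τ (i + 1)))) ^ s *
              (sl (τ k) (cl (τ (k + 1))) ^ s * H (τ (k + 1)) / H (τ k)) := by
              have := hN0 (τ k)
              gcongr
              exact hNH _
          _ = _ := by field_simp
    refine key.trans (mul_le_mul_of_nonneg_right ?_ (Real.rpow_nonneg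
      (Finset.prod_nonneg fun i _ => (h.pos _ _).le) _))
    exact div_le_div₀ ((hH0 _).le.trans (hc2' (τ k))) (hc2' _) hc10
      (Finset.inf'_le (fun a : G => H a) (by simp))
  · induction k with
    | zero =>
      intro ω τ h1 h2
      rw [Finset.prod_range_zero, mul_one, Real.dist_eq, hrec ω, hrec τ, h1 0 le_rfl]
      refine le_trans (mul_le_mul (Finset.inf'_le (fun a : G => min (sl a false) (sl a true))
        (Finset.mem_univ (τ 0))) ?_ (by positivity) (le_min (h.pos _ _).le (h.pos _ _).le))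
        (h.lip _ _ _).2
      rw [hrec, hrec fun n => τ (n + 1)]
      exact h.sep' (fun e => h2 (Subtype.ext e)) (hGA _).2 (hGA _).2 (sub4 (hπ _)) (sub4 (hπ _))
    | succ k ih =>
      intro ω τ h1 h2
      have := ih (fun n => ω (n + 1)) (fun n => τ (n + 1)) (fun i hi => h1 _ (by omega)) h2
      have a1 := hI fun n => ω (n + 1)
      have a2 := hI fun n => τ (n + 1)
      simp only [h1 (0 + 1) (by omega)] at a1
      rw [Finset.prod_range_succ', Real.dist_eq, hrec ω, hrec τ, h1 0 (by omega),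
        h.affine _ _ a1 a2, ← mul_assoc, mul_comm]
      exact mul_le_mul_of_nonneg_left this (h.pos _ _).le
  · refine ⟨fun n => ω n, fun n => (hGA _).1, fun n => ?_⟩
    induction n generalizing ω with
    | zero => exact ⟨π ω, I_sub _ (hI ω), rfl⟩
    | succ n ih =>
      obtain ⟨y, hy, e⟩ := ih fun n => ω (n + 1)
      refine ⟨y, hy, ?_⟩
      rw [hrec ω, ← e]
      simp only [List.ofFn_succ, cp_cons, Function.comp, Fin.val_zero, Fin.val_succ]

end Pool.Agent.H.MP_5d65a3_an
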