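import Pool.Agent.H.MP_5d65a3_an.C

set_option autoImplicit false

namespace Pool.Agent.H.MP_5d65a3_an

open Set Metric Filter Topology MeasureTheory
open scoped ENNReal NNReal

def SL (α β ρ q : ℝ) : ℕ → Bool → ℝ
  | 0, j => if j then α else β
  | 1, j => if j then β else α
  | n + 2, _ => ρ * q ^ n

open Classical in
noncomputable def fS (ρ q : ℝ) (A : Set ℕ) (s : ℝ) (m : ℕ) : ℝ :=
  ∑ n ∈ Finset.range m, if n + 2 ∈ A then ρ ^ s * (q ^ s) ^ n else 0

structure Par (α β ρ q : ℝ) : Prop where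
  a0 : 0 < α
  ab : α ≤ β
  b1 : β ≤ 1 / 100
  r0 : 0 < ρ
  r1 : ρ ≤ 1 / 100
  q0 : 0 < q
  q1 : q ≤ 1 / 2

variable {u D : ℕ → ℝ → ℝ} {α β ρ q : ℝ}

theorem Par.pw (p : Par α β ρ q) (s : ℝ) (n : ℕ) : (ρ * q ^ n) ^ s = ρ ^ s * (q ^ s) ^ n := by
  rw [Real.mul_rpow p.r0.le (pow_pos p.q0 n).le, ← Real.rpow_natCast, ← Real.rpow_mul p.q0.le,
    mul_comm (n : ℝ), Real.rpow_mul p.q0.le, Real.rpow_natCast]

open Classical in
theorem Par.up (p : Par α β ρ q) (h : OK u D (SL α β ρ q)) (A : Set ℕ) {s : ℝ} (hs : 0 ≤ s)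
    (v : Bool → ℝ) (hv0 : ∀ j, 0 < v j)
    (hv : ∀ j m, (if 0 ∈ A then SL α β ρ q 0 j ^ s * v true else 0) +
      (if 1 ∈ A then SL α β ρ q 1 j ^ s * v false else 0) + fS ρ q A s m * v false ≤ v j) :
    dimH (Lam XX u A) ≤ ENNReal.ofReal s := by
  refine h.upper A hs v hv0 fun j m => le_trans (Finset.sum_le_sum_of_subset_of_nonneg
    (Finset.range_mono (by omega : m ≤ m + 2)) fun a _ _ => ?_) (le_trans (le_of_eq ?_) (hv j m))
  · have := h.pos a j
    have := hv0 (cl a)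
    split_ifs <;> positivity
  · rw [Finset.sum_range_succ', Finset.sum_range_succ', fS, Finset.sum_mul]
    have : ∀ n, (if n + 1 + 1 ∈ A then SL α β ρ q (n + 1 + 1) j ^ s * v (cl (n + 1 + 1)) else 0) =
        (if n + 2 ∈ A then ρ ^ s * (q ^ s) ^ n else 0) * v false := fun n => by
      rw [← p.pw]
      split_ifs <;> simp [SL, cl]
    simp only [this]
    simp only [cl, zero_add, decide_true, one_ne_zero, decide_false]
    ring

theorem fS_mono (p : Par α β ρ q) (A : Set ℕ) (s : ℝ) : Monotone (fS ρ q A s) := by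
  intro m n hmn
  refine Finset.sum_le_sum_of_subset_of_nonneg (Finset.range_mono hmn) fun a _ _ => ?_
  have := p.r0
  have := p.q0
  split_ifs <;> positivity

theorem fS_anti (p : Par α β ρ q) (A : Set ℕ) {s s' : ℝ} (h : s' ≤ s) (m : ℕ) :
    fS ρ q A s m ≤ fS ρ q A s' m := by
  refine Finset.sum_le_sum fun n _ => ?_
  split_ifs
  · rw [← p.pw, ← p.pw]
    refine Real.rpow_le_rpow_of_exponent_ge (mul_pos p.r0 (pow_pos p.q0 n)) ?_ h
    have := pow_le_one₀ (n := n) p.q0.le (by linarith [p.q1])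
    nlinarith [p.r0, p.r1]
  · rfl

open Classical in
theorem Par.lo (p : Par α β ρ q) (h : OK u D (SL α β ρ q)) (A : Set ℕ) (hA : 0 ∈ A) {s : ℝ}
    (hs : 0 < s) (m : ℕ) (hw : 1 - α ^ s ≤ (if 1 ∈ A then α ^ s * (1 - α ^ s) + β ^ s * β ^ s else 0)
      + fS ρ q A s m * (1 - α ^ s + β ^ s)) : ENNReal.ofReal s ≤ dimH (Lam XX u A) := by
  have hx : α ^ s < 1 := Real.rpow_lt_one p.a0.le (by linarith [p.ab, p.b1]) hs
  have hy : 0 < β ^ s := Real.rpow_pos_of_pos (p.a0.trans_le p.ab) s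
  refine h.lower A hA hs (fun j => if j then β ^ s else 1 - α ^ s)
    (fun j => by cases j <;> simp [hx, hy]) (m + 1) fun j => ?_
  rw [Finset.sum_range_succ', Finset.sum_range_succ']
  cases j
  · refine hw.trans (le_of_eq ?_)
    rw [fS, Finset.sum_mul, add_comm]
    simp only [cl, zero_add, decide_true, one_ne_zero, decide_false, Bool.true_eq_false, and_false,
      if_false, add_zero, and_true, Bool.false_eq_true, if_true, SL, Nat.succ_ne_zero, p.pw]
    congr 1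
    refine Finset.sum_congr rfl fun n _ => ?_
    split_ifs <;> ring
  · simp [cl, SL, hA]
    ring_nf
    rfl

open Classical in
theorem Par.exact (p : Par α β ρ q) (h : OK u D (SL α β ρ q)) (A : Set ℕ) (hA : 0 ∈ A) {s : ℝ}
    (hs : 0 < s) (f : ℝ) (hf : Tendsto (fS ρ q A s) atTop (𝓝 f))
    (he : f = if 1 ∈ A then 1 - α ^ s - β ^ s else (1 - α ^ s) / (1 - α ^ s + β ^ s)) :
    dimH (Lam XX u A) = ENNReal.ofReal s := by
  have hb : 0 < β := p.a0.trans_le p.ab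
  have hx : ∀ s : ℝ, 0 < s → α ^ s < 1 := fun s hs =>
    Real.rpow_lt_one p.a0.le (by linarith [p.ab, p.b1]) hs
  have hx0 : 0 < α ^ s := Real.rpow_pos_of_pos p.a0 s
  have hy : ∀ s : ℝ, 0 < β ^ s := Real.rpow_pos_of_pos hb
  have hle := (fS_mono p A s).ge_of_tendsto hf
  have x1 := hx s hs
  have y1 := hy s
  refine le_antisymm ?_ ?_
  · have f0 : 0 ≤ f := le_trans (by simp [fS]) (hle 0)
    by_cases h1 : 1 ∈ A
    · rw [if_pos h1] at he
      refine p.up h A hs.le (fun j => if j then β ^ s + f else 1 - α ^ s)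
        (fun j => by cases j <;> simp [x1]; linarith) fun j m => ?_
      have := mul_le_mul_of_nonneg_right (hle m) (sub_pos.2 x1).le
      cases j <;> simp [hA, h1, SL] <;> rw [he] at this ⊢ <;> nlinarith
    · rw [if_neg h1] at he
      have f1 : f * (1 - α ^ s + β ^ s) = 1 - α ^ s := by
        rw [he]; exact div_mul_cancel₀ _ (by linarith)
      have f2 : 0 < f := by rw [he]; apply div_pos <;> linarith
      refine p.up h A hs.le (fun j => if j then f else 1 - α ^ s)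
        (fun j => by cases j <;> simp [x1, f2]) fun j m => ?_
      have := mul_le_mul_of_nonneg_right (hle m) (sub_pos.2 x1).le
      cases j <;> simp [hA, h1, SL] <;> nlinarith
  · by_contra hc
    obtain ⟨s', -, h1, h2⟩ := ENNReal.lt_iff_exists_real_btwn.1 (not_le.1 hc)
    have s0 : 0 < s' := ENNReal.ofReal_pos.1 (lt_of_le_of_lt (by positivity) h1)
    have s1 : s' < s := (ENNReal.ofReal_lt_ofReal_iff hs).1 h2
    have x2 := hx s' s0
    have y2 := hy s'
    have x3 : α ^ s < α ^ s' :=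
      Real.rpow_lt_rpow_of_exponent_gt p.a0 (by linarith [p.ab, p.b1]) s1
    have y3 : β ^ s < β ^ s' := Real.rpow_lt_rpow_of_exponent_gt hb (by linarith [p.b1]) s1
    have : (if 1 ∈ A then 1 - α ^ s' - β ^ s' else (1 - α ^ s') / (1 - α ^ s' + β ^ s')) < f := by
      rw [he]
      split_ifs
      · linarith
      · rw [div_lt_div_iff₀ (by linarith) (by linarith)]; nlinarith
    obtain ⟨m, hm⟩ := (hf.eventually (lt_mem_nhds this)).exists
    have hm2 := hm.le.trans (fS_anti p A s1.le m)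
    refine absurd (p.lo h A hA s0 m ?_) (not_le.2 h1)
    split_ifs at hm2 ⊢
    · nlinarith
    · rw [div_le_iff₀ (by linarith)] at hm2; linarith

theorem Par.full (p : Par α β ρ q) (A : Set ℕ) (hA : ∀ n, n + 2 ∈ A) {s : ℝ} (hs : 0 < s) :
    Tendsto (fS ρ q A s) atTop (𝓝 (ρ ^ s / (1 - q ^ s))) := by
  have := (hasSum_geometric_of_lt_one (Real.rpow_nonneg p.q0.le s)
    (Real.rpow_lt_one p.q0.le (by linarith [p.q1]) hs)).mul_left (ρ ^ s)
  unfold fS
  simp only [hA, if_true]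
  exact this.tendsto_sum_nat

theorem Lam_mono {X : Set ℝ} {A B : Set ℕ} (h : A ⊆ B) : dimH (Lam X u A) ≤ dimH (Lam X u B) :=
  dimH_mono fun _ ⟨ω, h1, h2⟩ => ⟨ω, fun n => h (h1 n), h2⟩

theorem Par.spec (p : Par α β ρ q) (h : OK u D (SL α β ρ q)) {t : ℝ} (ht : 0 < t)
    (e1 : ρ ^ t / (1 - q ^ t) = (1 - α ^ t) / (1 - α ^ t + β ^ t))
    (e2 : 1 - α ^ (2 * t) - β ^ (2 * t) = 0)
    (e3 : ρ ^ (3 * t) / (1 - q ^ (3 * t)) = 1 - α ^ (3 * t) - β ^ (3 * t))
    (e4 : 1 / 2 ≤ q ^ (3 * t)) : DS XX u = Icc 0 t ∪ Icc (2 * t) (3 * t) := by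
  classical
  have hb : 0 < β := p.a0.trans_le p.ab
  have anti : ∀ z : ℝ, 0 < z → z ≤ 1 / 2 → ∀ s s' : ℝ, s ≤ s' → z ^ s' ≤ z ^ s :=
    fun z h0 h1 s s' hs => Real.rpow_le_rpow_of_exponent_ge h0 (by linarith) hs
  have aα := anti α p.a0 (by linarith [p.ab, p.b1])
  have aβ := anti β hb (by linarith [p.b1])
  have aρ := anti ρ p.r0 (by linarith [p.r1])
  have aq := anti q p.q0 p.q1
  have hx : ∀ s : ℝ, 0 < s → α ^ s < 1 := fun s hs =>
    Real.rpow_lt_one p.a0.le (by linarith [p.ab, p.b1]) hs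
  have hq : ∀ s : ℝ, 0 < s → q ^ s < 1 := fun s hs =>
    Real.rpow_lt_one p.q0.le (by linarith [p.q1]) hs
  have hy : ∀ s : ℝ, 0 < β ^ s := Real.rpow_pos_of_pos hb
  have hρ : ∀ s : ℝ, 0 < ρ ^ s := Real.rpow_pos_of_pos p.r0
  have fa : ∀ s s' : ℝ, 0 < s → s ≤ s' → ρ ^ s' / (1 - q ^ s') ≤ ρ ^ s / (1 - q ^ s) :=
    fun s s' h0 hs => div_le_div₀ (hρ s).le (aρ _ _ hs) (by linarith [hq s h0])
      (by linarith [aq _ _ hs])
  have att : ∀ (i : Prop) (s : ℝ), 0 < s → s ≤ 3 * t → ∀ f, 0 ≤ f → f ≤ ρ ^ s / (1 - q ^ s) →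
      (f = if i then 1 - α ^ s - β ^ s else (1 - α ^ s) / (1 - α ^ s + β ^ s)) → s ∈ DS XX u := by
    intro i s h0 h1 f f0 f1 he
    obtain ⟨S, hS⟩ := kakeya (ρ ^ s) (q ^ s) f (hρ s) (e4.trans (aq _ _ h1)) (hq s h0) f0 f1
    refine ⟨h0.le, {a | a = 0 ∨ (a = 1 ∧ i) ∨ (2 ≤ a ∧ S (a - 2))},
      p.exact h _ (Or.inl rfl) h0 f ?_ (by simpa using he)⟩
    unfold fS
    simpa using hS
  have d1 := p.exact h {a | a ≠ 1} (by simp) ht _ (p.full _ (by simp) ht) (by simpa using e1)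
  have d2 := p.exact h {0, 1} (by simp) (s := 2 * t) (by linarith) 0 (by unfold fS; simp)
    (by simpa using e2.symm)
  have d3 := p.exact h univ (by simp) (s := 3 * t) (by linarith) _ (p.full _ (by simp) (by linarith))
    (by simpa using e3)
  have d4 : dimH (Lam XX u {a | a ≠ 0}) ≤ ENNReal.ofReal t := by
    have hle := (fS_mono p {a | a ≠ 0} t).ge_of_tendsto (p.full _ (by simp) ht)
    have : (1 - α ^ t) / (1 - α ^ t + β ^ t) ≤ 1 - α ^ t := div_le_self (by linarith [hx t ht])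
      (by linarith [Real.rpow_le_rpow p.a0.le p.ab ht.le])
    have y1 : β ^ t ≤ 1 := Real.rpow_le_one hb.le (by linarith [p.b1]) ht.le
    have x0 : 0 < α ^ t := Real.rpow_pos_of_pos p.a0 t
    refine p.up h _ ht.le (fun j => if j then 2 else 1) (fun j => by cases j <;> simp) fun j m => ?_
    have := hle m
    cases j <;> simp [SL] <;> linarith
  ext s
  constructor
  · rintro ⟨s0, A, hA⟩
    by_cases h0 : 0 ∈ A
    · by_cases h1 : 1 ∈ A
      · have a1 := Lam_mono (u := u) (X := XX) (A := {0, 1}) (B := A) (by simp [insert_subset_iff, h0, h1])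
        have a2 := Lam_mono (u := u) (X := XX) (subset_univ A)
        rw [d2, hA, ENNReal.ofReal_le_ofReal_iff s0] at a1
        rw [d3, hA, ENNReal.ofReal_le_ofReal_iff (by linarith)] at a2
        exact Or.inr ⟨a1, a2⟩
      · have a1 := Lam_mono (u := u) (X := XX) (A := A) (B := {a | a ≠ 1})
          (fun a ha e => h1 (e ▸ ha))
        rw [d1, hA, ENNReal.ofReal_le_ofReal_iff ht.le] at a1
        exact Or.inl ⟨s0, a1⟩
    · have a1 := (Lam_mono (u := u) (X := XX) (A := A) (B := {a | a ≠ 0})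
        (fun a ha e => h0 (e ▸ ha))).trans d4
      rw [hA, ENNReal.ofReal_le_ofReal_iff ht.le] at a1
      exact Or.inl ⟨s0, a1⟩
  · rintro (⟨a1, a2⟩ | ⟨a1, a2⟩)
    · rcases a1.eq_or_lt with rfl | a1
      · refine ⟨le_rfl, ∅, ?_⟩
        have : Lam XX u ∅ = ∅ := eq_empty_of_forall_notMem fun x ⟨ω, h1, _⟩ => h1 0
        simp [this]
      · refine att False s a1 (by linarith) _ ?_ ?_ (if_neg not_false).symm
        · exact div_nonneg (by linarith [hx s a1]) (by linarith [hx s a1, hy s])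
        · refine le_trans ?_ (fa s t a1 a2)
          have := hx s a1
          have := hx t ht
          have := hy s
          have := hy t
          have := aα _ _ a2
          have := aβ _ _ a2
          rw [e1, div_le_div_iff₀ (by linarith) (by linarith)]; nlinarith
    · refine att True s (by linarith) a2 _ ?_ ?_ (if_pos trivial).symm
      · linarith [aα _ _ a1, aβ _ _ a1]
      · linarith [fa s (3 * t) (by linarith) a2, aα _ _ a2, aβ _ _ a2]

theorem exists_par : ∃ α β ρ q t : ℝ, Par α β ρ q ∧ 0 < t ∧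
    ρ ^ t / (1 - q ^ t) = (1 - α ^ t) / (1 - α ^ t + β ^ t) ∧ 1 - α ^ (2 * t) - β ^ (2 * t) = 0 ∧
    ρ ^ (3 * t) / (1 - q ^ (3 * t)) = 1 - α ^ (3 * t) - β ^ (3 * t) ∧ 1 / 2 ≤ q ^ (3 * t) := by
  obtain ⟨Q, ⟨q0, q1⟩, hQ⟩ := intermediate_value_Icc' (a := (4 / 5 : ℝ)) (b := 19 / 20) (by norm_num)
    (f := fun Q : ℝ => (1 - Q) ^ 2 * (99 / 200) ^ 3 -
      (1 - (200 / 10001) ^ 3 - (9999 / 10001) ^ 3) * (1 + Q + Q ^ 2)) (by fun_prop)
    (show (0 : ℝ) ∈ _ by constructor <;> norm_num)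
  obtain ⟨N, hN, hN1⟩ := (((tendsto_pow_atTop_nhds_zero_of_lt_one (r := (9999 / 10001 : ℝ))
    (by norm_num) (by norm_num)).eventually (ge_mem_nhds (by norm_num : (0 : ℝ) < 1 / 100))).and
    (eventually_ge_atTop 1)).exists
  have e1 : ∀ z : ℝ, 0 ≤ z → (z ^ N) ^ ((N : ℝ)⁻¹) = z := fun z hz =>
    Real.pow_rpow_inv_natCast hz (by omega)
  have e2 : ∀ (k : ℕ) (z : ℝ), 0 ≤ z → (z ^ N) ^ (k * (N : ℝ)⁻¹) = z ^ k := fun k z hz => by
    rw [mul_comm, Real.rpow_mul (by positivity), e1 z hz, Real.rpow_natCast]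
  have e3 := e2 2
  have e4 := e2 3
  push_cast at e3 e4
  have le : ∀ z : ℝ, 0 ≤ z → z ≤ 9999 / 10001 → z ^ N ≤ (9999 / 10001) ^ N := fun z h0 h1 =>
    pow_le_pow_left₀ h0 h1 N
  have r0 : 0 < (1 - Q) * (99 / 200) := by nlinarith
  have q2 : 0 < Q := by linarith
  refine ⟨(200 / 10001) ^ N, (9999 / 10001) ^ N, ((1 - Q) * (99 / 200)) ^ N, Q ^ N, (N : ℝ)⁻¹,
    ⟨by positivity, le _ (by norm_num) (by norm_num), hN, by positivity,
      (le _ r0.le (by linarith)).trans hN, by positivity,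
      (le _ q2.le (by linarith)).trans (by linarith)⟩, by positivity, ?_, ?_, ?_, ?_⟩
  · rw [e1 _ r0.le, e1 _ q2.le, e1 _ (by norm_num), e1 _ (by norm_num),
      mul_div_cancel_left₀ _ (by linarith)]
    norm_num
  · rw [e3 _ (by norm_num), e3 _ (by norm_num)]; norm_num
  · rw [e4 _ r0.le, e4 _ q2.le, e4 _ (by norm_num), e4 _ (by norm_num),
      div_eq_iff (by nlinarith [pow_le_pow_left₀ q2.le q1 3])]
    linear_combination (1 - Q) * hQ
  · rw [e4 _ q2.le]
    nlinarith [pow_le_pow_left₀ (by norm_num) q0 3]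

theorem main : ∃ (X V : Set ℝ) (u : ℕ → ℝ → ℝ), CIFS X V u ∧
    (∃ t : ℝ, 0 < t ∧ DS X u = Icc 0 t ∪ Icc (2 * t) (3 * t)) ∧
    (fun x => sSup (DS X u) - x) '' DS X u = DS X u ∧ ∀ lam : ℝ, DS X u ≠ Icc 0 lam := by
  obtain ⟨α, β, ρ, q, t, p, ht, e1, e2, e3, e4⟩ := exists_par
  have hb : 0 < β := p.a0.trans_le p.ab
  obtain ⟨u, D, h⟩ := exists_OK (SL α β ρ q) (fun a j => by
    rcases a with _ | _ | n
    · cases j <;> simp [SL, hb, p.a0]
    · cases j <;> simp [SL, hb, p.a0]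
    · exact mul_pos p.r0 (pow_pos p.q0 n)) (fun a j => by
    rcases a with _ | _ | n
    · cases j <;> simp [SL] <;> linarith [p.ab, p.b1]
    · cases j <;> simp [SL] <;> linarith [p.ab, p.b1]
    · have := pow_le_pow_left₀ p.q0.le p.q1 n
      have := pow_pos p.q0 n
      simp only [SL]
      rw [pow_succ, pow_succ]
      nlinarith [p.r1])
  have hS := p.spec h ht e1 e2 e3 e4
  have h1 : 1 ≤ β / α := (one_le_div p.a0).2 p.ab
  refine ⟨XX, Ioo (-1) 4, u, h.cifs (β / α) h1 (fun a => ?_), ⟨t, ht, hS⟩, ?_, fun lam e => ?_⟩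
  · rcases a with _ | _ | n
    · simp [SL, p.ab, p.a0.ne']
    · simp [SL, p.ab, p.a0.ne']
    · simp only [SL, max_self, min_self]
      exact le_mul_of_one_le_left (mul_pos p.r0 (pow_pos p.q0 n)).le h1
  · have : sSup (Icc 0 t ∪ Icc (2 * t) (3 * t)) = 3 * t := IsGreatest.csSup_eq
      ⟨Or.inr ⟨by linarith, le_rfl⟩, by rintro x (hx | hx) <;> linarith [hx.2]⟩
    rw [hS, this, image_union, image_const_sub_Icc, image_const_sub_Icc, union_comm]
    ring_nf
  · rw [hS] at e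
    have a1 : 3 * t ∈ Icc 0 lam := e ▸ Or.inr ⟨by linarith, le_rfl⟩
    have a2 : 3 / 2 * t ∈ Icc 0 t ∪ Icc (2 * t) (3 * t) := e ▸ ⟨by linarith, by linarith [a1.2]⟩
    rcases a2 with a2 | a2 <;> linarith [a2.1, a2.2]

end Pool.Agent.H.MP_5d65a3_an
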